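import Mathlib
import Pool.Agent.H46Z.L2.Defs
import Pool.Agent.H46Z.L2.Grp
import Pool.Agent.H46Z.L2.Betti
import Pool.Agent.H46Z.L2.Low
import Pool.Agent.H46Z.L2.Surf

/-!
# A group with bounded virtual gap that is neither free nor a surface group

The group is the free product of `BS(1,4)` with a free group of rank two. A subgroup `H` of index `d`
has `b1 H ≤ 2 d + 1` and first `L²`-Betti number at least `2 d - 1`.
-/

set_option autoImplicit false

namespace Pool.Agent.Results.MP_a85771_al.ACounterexample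

open Pool.Agent.H46Z.L2

theorem result : ∃ (G : Type) (_ : Group G),
    (∀ g : G, IsOfFinOrder g → g = 1) ∧ Group.FG G ∧ Group.ResiduallyFinite G ∧
    (∀ S : Finset G, Subgroup.closure (S : Set G) = ⊤ → 0 < b1L2 S) ∧
    (∀ H : Subgroup G, H.FiniteIndex → ∀ S : Finset H, Subgroup.closure (S : Set H) = ⊤ →
      (b1 H : ℝ) - b1L2 S ≤ 2) ∧
    ¬ IsFreeGroup G ∧ ¬ IsHyperbolicSurfaceGroup G := by
  let P : Pot GG := ⟨ga, gb, cc, GG_top, GG_pot, ga_inf⟩
  refine ⟨GG, inferInstance, GG_tf, GG_fg, GG_rf, fun S hS => ?_, fun H hH S hS => ?_,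
    fun h => GG_not_lifts (lifts_of_free GG), fun h => GG_not_lifts (lifts_surf GG h)⟩
  · exact lt_of_lt_of_le one_pos (low_top P S hS)
  · have h1 := low_sub P H S hS
    have h2 : (b1 H : ℝ) ≤ 2 * (H.index : ℝ) + 1 := by
      exact_mod_cast b1_le H GG_top GG_rel
    linarith

end Pool.Agent.Results.MP_a85771_al.ACounterexample
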